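import Pool.Agent.V8H94.VT.Dom
import Pool.Agent.V8H1.VT.Lin

/-!
# Products of dominated classes are dominated
-/

set_option autoImplicit false

namespace Pool.Agent.V8H94.VT

open Module TensorProduct Pool.Agent.V8H94.CT Pool.Agent.V8H94.TC

variable {p : ℕ} [Fact p.Prime] {Ω : Type} [Field Ω] [CharZero Ω]

omit [Fact p.Prime] in
theorem isPure_iff_exists {k : ℕ} {a : Ω} : IsPure p k a ↔ IsIntegral ℤ a ∧
    ∃ x : algebraicClosure ℚ Ω, (x : Ω) = a ∧
      ∀ σ : algebraicClosure ℚ Ω →+* ℂ, ‖σ x‖ ^ 2 = (p : ℝ) ^ k := by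
  constructor
  · rintro ⟨h1, h2⟩
    obtain ⟨x, rfl⟩ := exists_lift (isAlgebraic_of_isIntegral h1)
    exact ⟨h1, x, rfl, (forall_conj (fun z => ‖z‖ ^ 2 = (p : ℝ) ^ k) x).1 h2⟩
  · rintro ⟨h1, x, rfl, h2⟩
    exact ⟨h1, (forall_conj (fun z => ‖z‖ ^ 2 = (p : ℝ) ^ k) x).2 h2⟩

omit [Fact p.Prime] in
theorem isPure_mul_of {k l : ℕ} {a b : Ω} (ha : IsPure p k a) (hb : IsPure p l b) :
    IsPure p (k + l) (a * b) := by
  obtain ⟨ha1, x, rfl, ha2⟩ := isPure_iff_exists.1 ha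
  obtain ⟨hb1, y, rfl, hb2⟩ := isPure_iff_exists.1 hb
  refine isPure_iff_exists.2 ⟨ha1.mul hb1, x * y, by push_cast; rfl, fun σ => ?_⟩
  rw [map_mul, norm_mul, mul_pow, ha2 σ, hb2 σ, pow_add]

omit [Fact p.Prime] in
theorem isPure_pow_of {k : ℕ} {a : Ω} (ha : IsPure p k a) (s : ℕ) : IsPure p (k * s) (a ^ s) := by
  obtain ⟨ha1, x, rfl, ha2⟩ := isPure_iff_exists.1 ha
  refine isPure_iff_exists.2 ⟨ha1.pow s, x ^ s, by push_cast; rfl, fun σ => ?_⟩
  rw [map_pow, norm_pow, ← pow_mul, mul_comm s 2, pow_mul, ha2 σ, ← pow_mul]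

/-- A basis of `B × B'` which contains given parts of bases of `B` and `B'`. -/
theorem perm_prod_basis {B B' : AbVar p Ω} {N N' : ℕ} (b : Basis (Fin N) Ω B.H)
    (b' : Basis (Fin N') Ω B'.H) (Y R : List (Ω × B.H)) (Y' R' : List (Ω × B'.H))
    (hP : (Y.map Prod.snd ++ R.map Prod.snd).Perm (List.ofFn b))
    (hP' : (Y'.map Prod.snd ++ R'.map Prod.snd).Perm (List.ofFn b')) :
    ((Y.map (fun x => (x.1, ((x.2, 0) : B.H × B'.H))) ++
        Y'.map (fun x => (x.1, ((0, x.2) : B.H × B'.H)))).map Prod.snd ++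
      (R.map (fun x => (x.1, ((x.2, 0) : B.H × B'.H))) ++
        R'.map (fun x => (x.1, ((0, x.2) : B.H × B'.H)))).map Prod.snd).Perm
      (List.ofFn ((b.prod b').reindex finSumFinEquiv)) := by
  have e0 : List.ofFn ((b.prod b').reindex finSumFinEquiv) =
      (List.ofFn b).map (fun v => ((v, 0) : B.H × B'.H)) ++
        (List.ofFn b').map (fun v => ((0, v) : B.H × B'.H)) := by
    rw [List.ofFn_add, List.map_ofFn, List.map_ofFn]
    congr 1
    · congr 1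
      funext i
      rw [Basis.reindex_apply]
      change (b.prod b') (finSumFinEquiv.symm (Fin.castAdd N' i)) = _
      rw [finSumFinEquiv_symm_apply_castAdd]
      simp [Basis.prod_apply]
    · congr 1
      funext i
      rw [Basis.reindex_apply, finSumFinEquiv_symm_apply_natAdd]
      simp [Basis.prod_apply]
  have e1 : ((Y.map (fun x => (x.1, ((x.2, 0) : B.H × B'.H))) ++
        Y'.map (fun x => (x.1, ((0, x.2) : B.H × B'.H)))).map Prod.snd ++
      (R.map (fun x => (x.1, ((x.2, 0) : B.H × B'.H))) ++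
        R'.map (fun x => (x.1, ((0, x.2) : B.H × B'.H)))).map Prod.snd) =
      ((Y.map Prod.snd).map (fun v => ((v, 0) : B.H × B'.H)) ++
        (Y'.map Prod.snd).map (fun v => ((0, v) : B.H × B'.H))) ++
      ((R.map Prod.snd).map (fun v => ((v, 0) : B.H × B'.H)) ++
        (R'.map Prod.snd).map (fun v => ((0, v) : B.H × B'.H))) := by
    simp only [List.map_append, List.map_map]
    rfl
  rw [e0, e1]
  refine List.Perm.trans ?_ ((hP.map _).append (hP'.map _))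
  rw [List.map_append, List.map_append, List.append_assoc, List.append_assoc]
  refine List.Perm.append_left _ ?_
  rw [← List.append_assoc, ← List.append_assoc]
  exact List.Perm.append_right _ List.perm_append_comm

/-- **The exterior product of two dominated classes is dominated.** -/
theorem IsDom.ext {T : Cohomology p Ω} {Z : Cycles T} {X Y : T.V} {x : T.H X} {y : T.H Y}
    (hx : IsDom Z X x) (hy : IsDom Z Y y) : IsDom Z (T.prod X Y) (T.ext X Y x y) := by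
  obtain ⟨i, k, c, a, hxi, hxk, ha, hX⟩ := hx
  obtain ⟨j, l, d, b, hyj, hyl, hb, hY⟩ := hy
  obtain ⟨n, hn⟩ := Pool.Agent.V8H1.VT.bil_gen (T.F X) (T.F Y) (T.ext X Y) (T.F (T.prod X Y))
    (T.m Y) (T.m X) (T.F_ext X Y) a b k l x y hxk hyl
  refine ⟨i + j, n, c + d, a ^ T.m Y * b ^ T.m X, T.ext_gr X Y i j x hxi y hyj, hn, ?_, ?_⟩
  · have h1 := isPure_mul_of (isPure_pow_of ha (T.m Y)) (isPure_pow_of hb (T.m X))
    have e : T.m X * i * T.m Y + T.m Y * j * T.m X = T.m (T.prod X Y) * (i + j) := by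
      rw [T.m_prod]; ring
    rwa [e] at h1
  intro t ht
  obtain ⟨B₁, N₁, g₁, e₁, b₁, Y₁, R₁, hm₁, hY₁, hR₁, hP₁, hN₁, he₁, hd₁, hp₁, hq₁, hC₁⟩ :=
    hX (T.m Y * t) (Nat.mul_pos (T.m_pos Y) ht)
  obtain ⟨B₂, N₂, g₂, e₂, b₂, Y₂, R₂, hm₂, hY₂, hR₂, hP₂, hN₂, he₂, hd₂, hp₂, hq₂, hC₂⟩ :=
    hY (T.m X * t) (Nat.mul_pos (T.m_pos X) ht)
  have hm : B₁.m = B₂.m := by rw [hm₁, hm₂]; ring
  have hl : ∀ (c : Ω) (v : B₁.H), B₁.F v = c • v →
      (B₁.prod B₂ hm).F ((v, 0) : B₁.H × B₂.H) = c • ((v, 0) : B₁.H × B₂.H) := by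
    intro c v h
    change (B₁.F v, B₂.F 0) = c • ((v, 0) : B₁.H × B₂.H)
    rw [h, map_zero, Prod.smul_mk, smul_zero]
  have hr : ∀ (c : Ω) (v : B₂.H), B₂.F v = c • v →
      (B₁.prod B₂ hm).F ((0, v) : B₁.H × B₂.H) = c • ((0, v) : B₁.H × B₂.H) := by
    intro c v h
    change (B₁.F 0, B₂.F v) = c • ((0, v) : B₁.H × B₂.H)
    rw [h, map_zero, Prod.smul_mk, smul_zero]
  have hlist : ∀ (U : List (Ω × B₁.H)) (U' : List (Ω × B₂.H)),
      (∀ u ∈ U, B₁.F u.2 = u.1 • u.2) → (∀ u ∈ U', B₂.F u.2 = u.1 • u.2) →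
      ∀ u ∈ U.map (fun x => (x.1, ((x.2, 0) : B₁.H × B₂.H))) ++
        U'.map (fun x => (x.1, ((0, x.2) : B₁.H × B₂.H))),
        (B₁.prod B₂ hm).F u.2 = u.1 • u.2 := by
    intro U U' hU hU' u hu
    rcases List.mem_append.1 hu with hu | hu
    · obtain ⟨u', hu', rfl⟩ := List.mem_map.1 hu
      exact hl _ _ (hU u' hu')
    · obtain ⟨u', hu', rfl⟩ := List.mem_map.1 hu
      exact hr _ _ (hU' u' hu')
  have hfst : ∀ (U : List (Ω × B₁.H)) (U' : List (Ω × B₂.H)),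
      ((U.map (fun x => (x.1, ((x.2, 0) : B₁.H × B₂.H))) ++
        U'.map (fun x => (x.1, ((0, x.2) : B₁.H × B₂.H)))).map Prod.fst).prod =
        (U.map Prod.fst).prod * (U'.map Prod.fst).prod := by
    intro U U'
    rw [List.map_append, List.prod_append, List.map_map, List.map_map]
    rfl
  refine ⟨B₁.prod B₂ hm, N₁ + N₂, g₁ + g₂, e₁ * e₂, (b₁.prod b₂).reindex finSumFinEquiv,
    Y₁.map (fun x => (x.1, ((x.2, 0) : B₁.H × B₂.H))) ++
      Y₂.map (fun x => (x.1, ((0, x.2) : B₁.H × B₂.H))),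
    R₁.map (fun x => (x.1, ((x.2, 0) : B₁.H × B₂.H))) ++
      R₂.map (fun x => (x.1, ((0, x.2) : B₁.H × B₂.H))), ?_, hlist Y₁ Y₂ hY₁ hY₂,
    hlist R₁ R₂ hR₁ hR₂, perm_prod_basis b₁ b₂ Y₁ R₁ Y₂ R₂ hP₁ hP₂, by omega,
    Nat.mul_pos he₁ he₂, ?_, ?_, ?_, ?_⟩
  · change B₁.m = _
    rw [hm₁, T.m_prod, mul_assoc]
  · have hlen : (Y₁.map (fun x => (x.1, ((x.2, 0) : B₁.H × B₂.H))) ++
        Y₂.map (fun x => (x.1, ((0, x.2) : B₁.H × B₂.H)))).length = Y₁.length + Y₂.length := by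
      rw [List.length_append, List.length_map, List.length_map]
    exact (congrArg (fun n => i + j + n) hlen).trans (by omega)
  · refine (congrArg (fun z => ((a ^ T.m Y * b ^ T.m X) ^ t * z) ^ (e₁ * e₂)) (hfst Y₁ Y₂)).trans ?_
    have e : (a ^ T.m Y * b ^ T.m X) ^ t * ((Y₁.map Prod.fst).prod * (Y₂.map Prod.fst).prod) =
        (a ^ (T.m Y * t) * (Y₁.map Prod.fst).prod) * (b ^ (T.m X * t) * (Y₂.map Prod.fst).prod) := by
      rw [mul_pow, ← pow_mul, ← pow_mul]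
      ring
    change ((a ^ T.m Y * b ^ T.m X) ^ t * ((Y₁.map Prod.fst).prod * (Y₂.map Prod.fst).prod)) ^
      (e₁ * e₂) = _
    rw [e, mul_pow, pow_mul (a ^ (T.m Y * t) * (Y₁.map Prod.fst).prod), hp₁, mul_comm e₁ e₂,
      pow_mul (b ^ (T.m X * t) * (Y₂.map Prod.fst).prod), hp₂, T.m_prod, ← pow_mul, ← pow_mul,
      ← pow_mul, ← pow_mul, ← pow_add, ← pow_mul]
    congr 1
    ring
  · refine (congrArg₂ (fun z w => z * w) (hfst Y₁ Y₂) (hfst R₁ R₂)).trans ?_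
    change (Y₁.map Prod.fst).prod * (Y₂.map Prod.fst).prod *
      ((R₁.map Prod.fst).prod * (R₂.map Prod.fst).prod) = (p : Ω) ^ (B₁.m * (g₁ + g₂))
    rw [mul_mul_mul_comm, hq₁, hq₂, ← pow_add, ← hm]
    congr 1
    ring
  · have h1 := Z.ext_mem X Y B₁ B₂ hm i Y₁.length j Y₂.length x hxi
      (wedge (Y₁.map Prod.snd) : ExteriorAlgebra Ω B₁.H) (by
        have := wedge_mem (R := Ω) (Y₁.map Prod.snd)
        rwa [List.length_map] at this) y hyj
      (wedge (Y₂.map Prod.snd) : ExteriorAlgebra Ω B₂.H) (by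
        have := wedge_mem (R := Ω) (Y₂.map Prod.snd)
        rwa [List.length_map] at this) hC₁ hC₂
    have e : (wedge ((Y₁.map (fun x => (x.1, ((x.2, 0) : B₁.H × B₂.H))) ++
        Y₂.map (fun x => (x.1, ((0, x.2) : B₁.H × B₂.H)))).map Prod.snd) :
          ExteriorAlgebra Ω (B₁.H × B₂.H)) =
        ExteriorAlgebra.map (LinearMap.inl Ω B₁.H B₂.H) (wedge (Y₁.map Prod.snd)) *
          ExteriorAlgebra.map (LinearMap.inr Ω B₁.H B₂.H) (wedge (Y₂.map Prod.snd)) := by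
      rw [List.map_append, wedge_append, map_wedge, map_wedge, List.map_map, List.map_map,
        List.map_map, List.map_map]
      rfl
    exact (congrArg (fun w : ExteriorAlgebra Ω (B₁.H × B₂.H) => times T (T.prod X Y)
      (B₁.prod B₂ hm) (T.ext X Y x y) w ∈ Z.C (T.prod X Y) (B₁.prod B₂ hm)) e).mpr h1

end Pool.Agent.V8H94.VT
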